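import Pool.Agent.helper92.ISO.SpecC

/-!
# Row VVP of project ISO (MP_069684_lc): the lemma of Valiant and Vazirani
-/

set_option autoImplicit false

namespace Pool.Agent.ISO

open Pool.Agent.PB

theorem VVP_pow (m k c : ℕ) (hk : k ≤ m) : (∏ i : Fin m, if (i : ℕ) < k then c else 1) = c ^ k := by
  induction m generalizing k with
  | zero =>
    have : k = 0 := by omega
    subst this
    simp
  | succ m ih =>
    rw [Fin.prod_univ_castSucc]
    rcases Nat.lt_or_ge m k with h | h
    · have hk' : k = m + 1 := by omega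
      subst hk'
      have h1 : (∏ i : Fin m, if ((Fin.castSucc i : Fin (m + 1)) : ℕ) < m + 1 then c else 1) = c ^ m := by
        have h2 : ∀ i : Fin m, (if ((Fin.castSucc i : Fin (m + 1)) : ℕ) < m + 1 then c else 1) = c := by
          intro i
          rw [if_pos]
          exact (Fin.castSucc i).2
        rw [Finset.prod_congr rfl fun i _ => h2 i]
        simp
      rw [h1, if_pos (by simp), pow_succ]
    · have h1 := ih k h
      have h2 : (∏ i : Fin m, if ((Fin.castSucc i : Fin (m + 1)) : ℕ) < k then c else 1) = c ^ k := h1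
      rw [h2, if_neg (by simp; omega), mul_one]

open Classical in
theorem VVP_pi (m k c : ℕ) (hk : k ≤ m) (A : Type) [Fintype A] (Q : A → Prop) (s : Finset A) (hs : ∀ a, a ∈ s ↔ Q a)
    (S : Finset (Fin m → A)) (hS : ∀ g, g ∈ S ↔ ∀ i : Fin m, (i : ℕ) < k → Q (g i))
    (hc : c * s.card = Fintype.card A) : c ^ k * S.card = Fintype.card (Fin m → A) := by
  have h1 : S = Fintype.piFinset (fun i : Fin m => if (i : ℕ) < k then s else Finset.univ) := by
    ext g
    rw [hS, Fintype.mem_piFinset]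
    constructor
    · rintro h i
      by_cases hi : (i : ℕ) < k
      · rw [if_pos hi, hs]
        exact h i hi
      · rw [if_neg hi]
        exact Finset.mem_univ _
    · intro h i hi
      have h2 := h i
      rw [if_pos hi, hs] at h2
      exact h2
  rw [h1, Fintype.card_piFinset, ← VVP_pow m k c hk, ← Finset.prod_mul_distrib]
  have h2 : ∀ i : Fin m, ((if (i : ℕ) < k then c else 1) *
      (if (i : ℕ) < k then s else Finset.univ).card) = Fintype.card A := by
    intro i
    by_cases hi : (i : ℕ) < k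
    · rw [if_pos hi, if_pos hi]
      exact hc
    · rw [if_neg hi, if_neg hi, one_mul]
      rfl
  rw [Finset.prod_congr rfl fun i _ => h2 i]
  simp

open Classical in
theorem VVP_main (w k : ℕ) (hk : k ≤ w + 2) (hIPC : IPC_stmt) (Z : Finset (Fin w → Bool)) (hu1 : 2 ^ k ≤ 4 * Z.card)
    (hu2 : 2 * Z.card ≤ 2 ^ k) (P : (Fin (w + 2) → (Fin w → Bool) × Bool) → (Fin w → Bool) → Prop)
    (hP : ∀ g y, P g y ↔ ∀ i : Fin (w + 2), (i : ℕ) < k → ip (g i).1 y = (g i).2) :
    Fintype.card (Fin (w + 2) → (Fin w → Bool) × Bool) ≤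
      8 * (Finset.univ.filter fun g : Fin (w + 2) → (Fin w → Bool) × Bool => (Z.filter fun y => P g y).card = 1).card := by
  obtain ⟨O, hO⟩ : ∃ O : ℝ, O = (Fintype.card (Fin (w + 2) → (Fin w → Bool) × Bool) : ℝ) := ⟨_, rfl⟩
  have hO0 : 0 ≤ O := by rw [hO]; exact Nat.cast_nonneg _
  obtain ⟨n, hn⟩ : ∃ n : ℝ, n = (Z.card : ℝ) := ⟨_, rfl⟩
  have hA : Fintype.card ((Fin w → Bool) × Bool) = 2 * 2 ^ w := by
    simp [Fintype.card_prod, mul_comm]
  -- one condition
  have hS : ∀ y : Fin w → Bool, ((Finset.univ.filter fun g : Fin (w + 2) → (Fin w → Bool) × Bool => P g y).card : ℝ) = O / 2 ^ k := by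
    intro y
    have h2 := (hIPC w y y).2.2
    have h1 := VVP_pi (w + 2) k 2 hk ((Fin w → Bool) × Bool) (fun a => ip a.1 y = a.2)
      (Finset.univ.filter fun a : (Fin w → Bool) × Bool => ip a.1 y = a.2)
      (fun a => by rw [Finset.mem_filter]; exact ⟨fun h => h.2, fun h => ⟨Finset.mem_univ _, h⟩⟩)
      (Finset.univ.filter fun g : Fin (w + 2) → (Fin w → Bool) × Bool => P g y)
      (fun g => by rw [Finset.mem_filter, hP]; exact ⟨fun h => h.2, fun h => ⟨Finset.mem_univ _, h⟩⟩)
      (by rw [h2, hA])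
    have h3 : ((2 : ℝ) ^ k) * ((Finset.univ.filter fun g : Fin (w + 2) → (Fin w → Bool) × Bool => P g y).card : ℝ) = O := by
      rw [hO]
      exact_mod_cast h1
    rw [eq_div_iff (by positivity)]
    linarith
  have hSS : ∀ y y' : Fin w → Bool, y ≠ y' → ((Finset.univ.filter fun g : Fin (w + 2) → (Fin w → Bool) × Bool =>
      P g y ∧ P g y').card : ℝ) = O / 4 ^ k := by
    intro y y' hy
    have h2 := (hIPC w y y').2.1 hy
    have h1 := VVP_pi (w + 2) k 4 hk ((Fin w → Bool) × Bool) (fun a => ip a.1 y = a.2 ∧ ip a.1 y' = a.2)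
      (Finset.univ.filter fun a : (Fin w → Bool) × Bool => ip a.1 y = a.2 ∧ ip a.1 y' = a.2)
      (fun a => by rw [Finset.mem_filter]; exact ⟨fun h => h.2, fun h => ⟨Finset.mem_univ _, h⟩⟩)
      (Finset.univ.filter fun g : Fin (w + 2) → (Fin w → Bool) × Bool => P g y ∧ P g y')
      (fun g => by
        rw [Finset.mem_filter, hP, hP]
        exact ⟨fun h i hi => ⟨h.2.1 i hi, h.2.2 i hi⟩, fun h => ⟨Finset.mem_univ _, fun i hi => (h i hi).1, fun i hi => (h i hi).2⟩⟩)
      (by
        rw [hA, ← h2]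
        ring)
    have h3 : ((4 : ℝ) ^ k) * ((Finset.univ.filter fun g : Fin (w + 2) → (Fin w → Bool) × Bool =>
      P g y ∧ P g y').card : ℝ) = O := by
      rw [hO]
      exact_mod_cast h1
    rw [eq_div_iff (by positivity)]
    linarith
  have hS' : ∀ y : Fin w → Bool, ∑ g : Fin (w + 2) → (Fin w → Bool) × Bool, (if P g y then (1 : ℝ) else 0) = O / 2 ^ k := by
    intro y
    rw [← hS y, Finset.sum_boole]
  have hSS' : ∀ y y' : Fin w → Bool, ∑ g : Fin (w + 2) → (Fin w → Bool) × Bool,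
      (if P g y then (1 : ℝ) else 0) * (if P g y' then (1 : ℝ) else 0) ≤ (if y = y' then O / 2 ^ k else 0) + O / 4 ^ k := by
    intro y y'
    by_cases hy : y = y'
    · subst hy
      rw [if_pos rfl]
      have h1 : ∀ g : Fin (w + 2) → (Fin w → Bool) × Bool, (if P g y then (1 : ℝ) else 0) * (if P g y then (1 : ℝ) else 0) =
          (if P g y then (1 : ℝ) else 0) := by
        intro g
        split_ifs <;> norm_num
      rw [Finset.sum_congr rfl fun g _ => h1 g, hS' y]
      have : 0 ≤ O / 4 ^ k := by positivity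
      linarith
    · rw [if_neg hy, zero_add, ← hSS y y' hy]
      have h1 : ∀ g : Fin (w + 2) → (Fin w → Bool) × Bool, (if P g y then (1 : ℝ) else 0) * (if P g y' then (1 : ℝ) else 0) =
          (if (P g y ∧ P g y') then (1 : ℝ) else 0) := by
        intro g
        by_cases a1 : P g y
        · by_cases a2 : P g y'
          · rw [if_pos a1, if_pos a2, if_pos ⟨a1, a2⟩, mul_one]
          · rw [if_pos a1, if_neg a2, if_neg (fun h : P g y ∧ P g y' => a2 h.2), mul_zero]
        · rw [if_neg a1, if_neg (fun h : P g y ∧ P g y' => a1 h.1), zero_mul]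
      rw [Finset.sum_congr rfl fun g _ => h1 g, Finset.sum_boole]
  -- the number of conditions
  have hN : ∀ g : Fin (w + 2) → (Fin w → Bool) × Bool, ((Z.filter fun y => P g y).card : ℝ) =
      ∑ y ∈ Z, (if P g y then (1 : ℝ) else 0) := by
    intro g
    rw [Finset.sum_boole]
  have h1 : ∑ g : Fin (w + 2) → (Fin w → Bool) × Bool, ∑ y ∈ Z, (if P g y then (1 : ℝ) else 0) = n * (O / 2 ^ k) := by
    rw [Finset.sum_comm, Finset.sum_congr rfl fun y _ => hS' y, Finset.sum_const, nsmul_eq_mul, hn]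
  have h2 : ∑ g : Fin (w + 2) → (Fin w → Bool) × Bool, (∑ y ∈ Z, (if P g y then (1 : ℝ) else 0)) ^ 2 ≤
      n * (O / 2 ^ k) + n * (n * (O / 4 ^ k)) := by
    calc ∑ g : Fin (w + 2) → (Fin w → Bool) × Bool, (∑ y ∈ Z, (if P g y then (1 : ℝ) else 0)) ^ 2
        = ∑ g : Fin (w + 2) → (Fin w → Bool) × Bool, ∑ y ∈ Z, ∑ y' ∈ Z, (if P g y then (1 : ℝ) else 0) * (if P g y' then (1 : ℝ) else 0) := by
          refine Finset.sum_congr rfl fun g _ => ?_
          rw [sq, Finset.sum_mul_sum]
      _ = ∑ y ∈ Z, ∑ y' ∈ Z, ∑ g : Fin (w + 2) → (Fin w → Bool) × Bool, (if P g y then (1 : ℝ) else 0) * (if P g y' then (1 : ℝ) else 0) := by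
          rw [Finset.sum_comm]
          refine Finset.sum_congr rfl fun y _ => ?_
          rw [Finset.sum_comm]
      _ ≤ ∑ y ∈ Z, ∑ y' ∈ Z, ((if y = y' then O / 2 ^ k else 0) + O / 4 ^ k) :=
          Finset.sum_le_sum fun y _ => Finset.sum_le_sum fun y' _ => hSS' y y'
      _ = ∑ y ∈ Z, (O / 2 ^ k + n * (O / 4 ^ k)) := by
          refine Finset.sum_congr rfl fun y hy => ?_
          rw [Finset.sum_add_distrib, Finset.sum_const, nsmul_eq_mul, hn, Finset.sum_ite_eq, if_pos hy]
      _ = _ := by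
          rw [Finset.sum_const, nsmul_eq_mul, ← hn]
          ring
  have h3 : 2 * (n * (O / 2 ^ k)) - (n * (O / 2 ^ k) + n * (n * (O / 4 ^ k))) ≤
      ((Finset.univ.filter fun g : Fin (w + 2) → (Fin w → Bool) × Bool =>
        (Z.filter fun y => P g y).card = 1).card : ℝ) := by
    have e1 : ((Finset.univ.filter fun g : Fin (w + 2) → (Fin w → Bool) × Bool =>
        (Z.filter fun y => P g y).card = 1).card : ℝ) =
        ∑ g : Fin (w + 2) → (Fin w → Bool) × Bool,
          (if (Z.filter fun y => P g y).card = 1 then (1 : ℝ) else 0) := by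
      rw [Finset.sum_boole]
    rw [e1]
    have e2 : ∑ g : Fin (w + 2) → (Fin w → Bool) × Bool, (2 * (∑ y ∈ Z, (if P g y then (1 : ℝ) else 0)) -
        (∑ y ∈ Z, (if P g y then (1 : ℝ) else 0)) ^ 2) ≤ ∑ g : Fin (w + 2) → (Fin w → Bool) × Bool,
          (if (Z.filter fun y => P g y).card = 1 then (1 : ℝ) else 0) := by
      refine Finset.sum_le_sum fun g _ => ?_
      rw [← hN g]
      obtain ⟨c, hc⟩ : ∃ c : ℕ, c = (Z.filter fun y => P g y).card := ⟨_, rfl⟩
      rw [← hc]
      by_cases c1 : c = 1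
      · rw [if_pos c1, c1]
        norm_num
      · rw [if_neg c1]
        rcases Nat.lt_or_ge c 2 with h | h
        · have : c = 0 := by omega
          rw [this]
          norm_num
        · have h5 : (2 : ℝ) ≤ c := by exact_mod_cast h
          nlinarith
    rw [Finset.sum_sub_distrib, ← Finset.mul_sum, h1] at e2
    linarith
  -- the numbers
  have h4 : O ≤ 8 * (2 * (n * (O / 2 ^ k)) - (n * (O / 2 ^ k) + n * (n * (O / 4 ^ k)))) := by
    obtain ⟨u, hu⟩ : ∃ u : ℝ, u = n / 2 ^ k := ⟨_, rfl⟩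
    have hp : (0 : ℝ) < 2 ^ k := by positivity
    have e1 : 1 / 4 ≤ u := by
      rw [hu, le_div_iff₀ hp, hn]
      have : (2 : ℝ) ^ k ≤ 4 * Z.card := by exact_mod_cast hu1
      linarith
    have e2 : u ≤ 1 / 2 := by
      rw [hu, div_le_iff₀ hp, hn]
      have : 2 * (Z.card : ℝ) ≤ 2 ^ k := by exact_mod_cast hu2
      linarith
    have e3 : (4 : ℝ) ^ k = 2 ^ k * 2 ^ k := by
      rw [← mul_pow]
      norm_num
    have e4 : 2 * (n * (O / 2 ^ k)) - (n * (O / 2 ^ k) + n * (n * (O / 4 ^ k))) = O * (u - u * u) := by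
      rw [hu, e3]
      field_simp
      ring
    rw [e4]
    have e5 : 1 / 8 ≤ u - u * u := by nlinarith
    nlinarith
  have h5 : O ≤ 8 * ((Finset.univ.filter fun g : Fin (w + 2) → (Fin w → Bool) × Bool =>
        (Z.filter fun y => P g y).card = 1).card : ℝ) := by
    linarith
  rw [hO] at h5
  exact_mod_cast h5

open Classical in
theorem VVP_proof (hIPC : IPC_stmt) : VVP_stmt := by
  intro w Z hZ
  have hn1 : 1 ≤ Z.card := Finset.card_pos.mpr hZ
  have hn2 : Z.card ≤ 2 ^ w := by
    have h1 := Finset.card_le_univ Z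
    have h2 : Fintype.card (Fin w → Bool) = 2 ^ w := by simp
    rw [h2] at h1
    exact h1
  obtain ⟨l, hl⟩ : ∃ l : ℕ, l = Nat.log 2 Z.card := ⟨_, rfl⟩
  have l1 : 2 ^ l ≤ Z.card := by rw [hl]; exact Nat.pow_log_le_self 2 (by omega)
  have l2 : Z.card < 2 ^ (l + 1) := by rw [hl]; exact Nat.lt_pow_succ_log_self (by norm_num) _
  have l3 : l ≤ w := by
    by_contra hcon
    push Not at hcon
    have h1 : 2 ^ (w + 1) ≤ 2 ^ l := Nat.pow_le_pow_right (by norm_num) hcon
    have h2 : 2 ^ w < 2 ^ (w + 1) := Nat.pow_lt_pow_right (by norm_num) (by omega)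
    omega
  have hk0 : l + 2 < w + 3 := by omega
  have hmain := VVP_main w (l + 2) (by omega) hIPC Z (by rw [pow_add]; omega) (by
    rw [pow_add]
    rw [pow_succ] at l2
    omega) (fun g y => hsat ((⟨l + 2, hk0⟩ : Fin (w + 3)), g) y) (fun g y => Iff.rfl)
  have hcard : Fintype.card (HI w) = (w + 3) * Fintype.card (Fin (w + 2) → (Fin w → Bool) × Bool) := by
    rw [Fintype.card_prod, Fintype.card_fin]
  have hle : (Finset.univ.filter fun g : Fin (w + 2) → (Fin w → Bool) × Bool =>
        (Z.filter fun y => hsat ((⟨l + 2, hk0⟩ : Fin (w + 3)), g) y).card = 1).card ≤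
      (Finset.univ.filter fun h : HI w => (Z.filter fun y => hsat h y).card = 1).card := by
    refine Finset.card_le_card_of_injOn (fun g => ((⟨l + 2, hk0⟩ : Fin (w + 3)), g)) ?_ ?_
    · intro g hg
      rw [Finset.mem_coe, Finset.mem_filter] at hg
      rw [Finset.mem_coe, Finset.mem_filter]
      exact ⟨Finset.mem_univ _, hg.2⟩
    · intro g _ g' _ h
      exact (Prod.mk.inj h).2
  rw [hcard]
  calc (w + 3) * Fintype.card (Fin (w + 2) → (Fin w → Bool) × Bool) ≤ (w + 3) * (8 * _) :=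
        Nat.mul_le_mul_left _ (le_trans hmain (Nat.mul_le_mul_left _ hle))
    _ = _ := by ring

end Pool.Agent.ISO
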